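import Mathlib

/-!
# Poissonian pair correlations in dimension `d`
-/

set_option autoImplicit false

namespace Q257.PPC

/-- The sequence `x 0, x 1, x 2, …` in `ℝ ^ d` has Poissonian pair correlations (with respect to the maximum
norm): for every `s > 0` the number of the pairs `(k, l)`, `k ≠ l`, of indices of the first `N` terms with
`‖x k - x l‖ < s / N ^ (1 / d)`, divided by `N`, tends to `(2 s) ^ d`. -/
def HasPPC (d : ℕ) (x : ℕ → Fin d → ℝ) : Prop :=
  ∀ s : ℝ, 0 < s → Filter.Tendsto (fun N : ℕ =>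
    (((Finset.range N ×ˢ Finset.range N).filter (fun kl : ℕ × ℕ => kl.1 ≠ kl.2 ∧
      ‖x kl.1 - x kl.2‖ < s / (N : ℝ) ^ (1 / (d : ℝ)))).card : ℝ) / N)
    Filter.atTop (nhds ((2 * s) ^ d))

end Q257.PPC
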