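import Mathlib
import Pool.Agent.Q257.PPC.Defs

/-!
# Points near few hyperplanes: many close pairs
-/

set_option autoImplicit false

open Finset

namespace Q257.PPC

/-- the possible cells -/
noncomputable def cells (d c Q : ℕ) (w : Fin d → ℕ) : Finset (Fin d → ℕ) := by
  classical
  exact (Fintype.piFinset (fun _ => range (c * Q))).filter
    (fun a => ∃ l : ℤ, ((c * Q : ℕ) : ℤ) * l - (d + 1) * Q ≤ ∑ i, (w i : ℤ) * a i ∧
      ∑ i, (w i : ℤ) * a i ≤ ((c * Q : ℕ) : ℤ) * l + Q)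

lemma mem_cells {d c Q : ℕ} {w a : Fin d → ℕ} : a ∈ cells d c Q w ↔ (∀ i, a i < c * Q) ∧
    ∃ l : ℤ, ((c * Q : ℕ) : ℤ) * l - (d + 1) * Q ≤ ∑ i, (w i : ℤ) * a i ∧
      ∑ i, (w i : ℤ) * a i ≤ ((c * Q : ℕ) : ℤ) * l + Q := by
  classical
  unfold cells
  simp only [mem_filter, Fintype.mem_piFinset, mem_range]

/-- the number of `t` for one value of `l` -/
lemma card_line (d Q u M : ℕ) (hu : Q < 4 * u) (X : ℤ) (S : Finset ℕ)
    (hS : ∀ t ∈ S, t < M ∧ X ≤ (u : ℤ) * t ∧ (u : ℤ) * t ≤ X + (d + 2) * Q) : S.card ≤ 4 * d + 8 := by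
  rcases S.eq_empty_or_nonempty with rfl | hne
  · simp
  · set t0 := S.min' hne with ht0
    have h0 := hS t0 (S.min'_mem hne)
    have hsub : S ⊆ Finset.Ico t0 (t0 + (4 * d + 8)) := by
      intro t ht
      have h1 := hS t ht
      have h2 : t0 ≤ t := S.min'_le t ht
      rw [Finset.mem_Ico]
      refine ⟨h2, ?_⟩
      by_contra hcon
      push Not at hcon
      have h3 : ((t0 : ℤ) + (4 * d + 8)) ≤ t := by exact_mod_cast hcon
      have h4 : (u : ℤ) * (t0 + (4 * d + 8)) ≤ u * t := mul_le_mul_of_nonneg_left h3 (by positivity)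
      have h5 : (Q : ℤ) < 4 * u := by exact_mod_cast hu
      have h6 : ((d : ℤ) + 2) * Q < (d + 2) * (4 * u) := mul_lt_mul_of_pos_left h5 (by positivity)
      nlinarith [h0.2.1, h1.2.2]
    have := card_le_card hsub
    simpa using this

lemma card_cells (d c Q : ℕ) (hc : 1 ≤ c) (hQ : 1 ≤ Q) (w : Fin d → ℕ) (hw : ∀ i, w i ≤ Q) (i0 : Fin d)
    (hi0 : Q < 4 * w i0) :
    (cells d c Q w).card ≤ (Q * ((d + 4) * (4 * d + 8))) * (c * Q) ^ (d - 1) := by
  classical
  set M := c * Q with hM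
  have hMQ : Q ≤ M := by rw [hM]; exact Nat.le_mul_of_pos_left _ hc
  have hM1 : 1 ≤ M := hQ.trans hMQ
  let f : (Fin d → ℕ) → (Fin d → ℕ) := fun a => Function.update a i0 0
  have himage : ((cells d c Q w).image f).card ≤ M ^ (d - 1) := by
    have hsub : (cells d c Q w).image f ⊆
        Fintype.piFinset (fun i => if i = i0 then {0} else range M) := by
      intro b hb
      obtain ⟨a, ha, rfl⟩ := mem_image.1 hb
      rw [Fintype.mem_piFinset]
      intro i
      by_cases h : i = i0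
      · subst h; simp [f]
      · simp only [f, Function.update_of_ne h, if_neg h, mem_range]
        exact (mem_cells.1 ha).1 i
    refine (card_le_card hsub).trans ?_
    rw [Fintype.card_piFinset]
    have h1 : ∀ i, (if i = i0 then ({0} : Finset ℕ) else range M).card = if i = i0 then 1 else M := by
      intro i
      split_ifs <;> simp
    simp only [h1]
    rw [← Finset.prod_erase (a := i0) univ (by simp)]
    have h2 : ∀ i ∈ univ.erase i0, (if i = i0 then 1 else M) = M := by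
      intro i hi
      rw [if_neg (ne_of_mem_erase hi)]
    rw [prod_congr rfl h2, prod_const, card_erase_of_mem (mem_univ _), card_univ, Fintype.card_fin]
  have hfib : ∀ b ∈ (cells d c Q w).image f, ((cells d c Q w).filter (fun a => f a = b)).card ≤
      Q * ((d + 4) * (4 * d + 8)) := by
    intro b _
    set R : ℤ := ∑ i, (w i : ℤ) * b i with hR
    set u := w i0 with hu
    set L0 : ℤ := (R - Q) / M with hL0
    -- the values of the coordinate `i0`
    have hval : ∀ a ∈ (cells d c Q w).filter (fun a => f a = b),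
        ∃ l ∈ Finset.Ico L0 (L0 + (u + d + 3 : ℕ)), a i0 < M ∧
          (M : ℤ) * l - (d + 1) * Q - R ≤ (u : ℤ) * a i0 ∧
          (u : ℤ) * a i0 ≤ (M : ℤ) * l - (d + 1) * Q - R + (d + 2) * Q := by
      intro a ha
      obtain ⟨ha, hab⟩ := mem_filter.1 ha
      obtain ⟨ha1, l, hl1, hl2⟩ := mem_cells.1 ha
      have hsum : ∑ i, (w i : ℤ) * a i = (u : ℤ) * a i0 + R := by
        have h1 : ∀ i, b i = if i = i0 then 0 else a i := by
          intro i
          rw [← hab]
          simp only [f, Function.update_apply]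
        rw [hR]
        simp only [h1]
        rw [← Finset.add_sum_erase _ _ (mem_univ i0), ← Finset.add_sum_erase univ
          (fun i => (w i : ℤ) * ((if i = i0 then 0 else a i : ℕ) : ℤ)) (mem_univ i0)]
        have h2 : ∑ i ∈ univ.erase i0, (w i : ℤ) * ((if i = i0 then 0 else a i : ℕ) : ℤ) =
            ∑ i ∈ univ.erase i0, (w i : ℤ) * a i := by
          refine sum_congr rfl fun i hi => ?_
          rw [if_neg (ne_of_mem_erase hi)]
        rw [h2, if_pos rfl]
        push_cast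
        ring
      rw [hsum] at hl1 hl2
      have ha0 := ha1 i0
      have hMz : (0 : ℤ) < M := by exact_mod_cast hM1
      have hMQz : (Q : ℤ) ≤ M := by exact_mod_cast hMQ
      have hua : (u : ℤ) * a i0 ≤ u * (M - 1) := by
        apply mul_le_mul_of_nonneg_left _ (by positivity)
        have : a i0 + 1 ≤ M := ha0
        have : (a i0 : ℤ) + 1 ≤ M := by exact_mod_cast this
        linarith
      have hu0 : (0 : ℤ) ≤ (u : ℤ) * a i0 := by positivity
      have hl1' : (M : ℤ) * l - (d + 1) * Q ≤ (u : ℤ) * a i0 + R := hl1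
      have hl2' : (u : ℤ) * a i0 + R ≤ (M : ℤ) * l + Q := hl2
      refine ⟨l, ?_, ha0, by linarith, by linarith⟩
      rw [Finset.mem_Ico]
      constructor
      · -- L0 ≤ l
        have h1 : R - Q ≤ M * l := by linarith
        rw [hL0]
        exact Int.ediv_le_of_le_mul hMz (by rw [mul_comm]; exact h1)
      · -- l < L0 + u + d + 3
        have h1 : R - Q < (L0 + 1) * M := by
          rw [hL0]
          exact Int.lt_ediv_add_one_mul_self _ hMz
        have h2 : (M : ℤ) * l < M * (L0 + (u + d + 3 : ℕ)) := by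
          push_cast
          have h3 : ((d : ℤ) + 2) * Q ≤ (d + 2) * M := mul_le_mul_of_nonneg_left hMQz (by positivity)
          nlinarith
        exact lt_of_mul_lt_mul_left h2 hMz.le
    -- count
    have hinj : Set.InjOn (fun a : Fin d → ℕ => a i0) ((cells d c Q w).filter (fun a => f a = b)) := by
      intro a ha a' ha' h
      rw [mem_coe, mem_filter] at ha ha'
      funext i
      by_cases hi : i = i0
      · subst hi; exact h
      · have h1 := congrFun (ha.2.trans ha'.2.symm) i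
        simpa only [f, Function.update_of_ne hi] using h1
    rw [← card_image_of_injOn hinj]
    have hsub : ((cells d c Q w).filter (fun a => f a = b)).image (fun a => a i0) ⊆
        (Finset.Ico L0 (L0 + (u + d + 3 : ℕ))).biUnion (fun l => (range M).filter (fun t =>
          (M : ℤ) * l - (d + 1) * Q - R ≤ (u : ℤ) * t ∧
          (u : ℤ) * t ≤ (M : ℤ) * l - (d + 1) * Q - R + (d + 2) * Q)) := by
      intro t ht
      obtain ⟨a, ha, rfl⟩ := mem_image.1 ht
      obtain ⟨l, hl, h1, h2, h3⟩ := hval a ha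
      rw [mem_biUnion]
      exact ⟨l, hl, mem_filter.2 ⟨mem_range.2 h1, h2, h3⟩⟩
    have hline : ∀ l : ℤ, ((range M).filter (fun t : ℕ =>
          (M : ℤ) * l - (d + 1) * Q - R ≤ (u : ℤ) * t ∧
          (u : ℤ) * t ≤ (M : ℤ) * l - (d + 1) * Q - R + (d + 2) * Q)).card ≤ 4 * d + 8 := by
      intro l
      apply card_line d Q u M hi0 ((M : ℤ) * l - (d + 1) * Q - R)
      intro t ht
      obtain ⟨h1, h2, h3⟩ := mem_filter.1 ht
      exact ⟨mem_range.1 h1, h2, h3⟩
    calc _ ≤ _ := card_le_card hsub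
      _ ≤ (Finset.Ico L0 (L0 + (u + d + 3 : ℕ))).card * (4 * d + 8) :=
          card_biUnion_le_card_mul _ _ _ fun l _ => hline l
      _ = (u + d + 3) * (4 * d + 8) := by
          rw [Int.card_Ico]
          congr 1
          have : L0 + (u + d + 3 : ℕ) - L0 = ((u + d + 3 : ℕ) : ℤ) := by ring
          rw [this]
          rfl
      _ ≤ (Q * (d + 4)) * (4 * d + 8) := by
          refine Nat.mul_le_mul_right _ ?_
          have h1 : u ≤ Q := hw i0
          nlinarith
      _ = Q * ((d + 4) * (4 * d + 8)) := by ring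
  calc (cells d c Q w).card ≤ (Q * ((d + 4) * (4 * d + 8))) * ((cells d c Q w).image f).card :=
        card_le_mul_card_image _ _ hfib
    _ ≤ _ := Nat.mul_le_mul_left _ himage

/-- the cell of a point -/
noncomputable def cell {d : ℕ} (M : ℕ) (x : Fin d → ℝ) : Fin d → ℕ := fun i => ⌊(M : ℝ) * x i⌋₊

lemma cell_mem {d c Q : ℕ} (hc : 1 ≤ c) (hQ : 1 ≤ Q) (w : Fin d → ℕ) (hw : ∀ i, w i ≤ Q)
    (x : Fin d → ℝ) (hx : ∀ i, 0 ≤ x i ∧ x i < 1) (l : ℤ)
    (hl : |∑ i, (w i : ℝ) * x i - l| ≤ 1 / c) : cell (c * Q) x ∈ cells d c Q w := by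
  have hcr : (0 : ℝ) < c := by exact_mod_cast hc
  have hQr : (0 : ℝ) < Q := by exact_mod_cast hQ
  have hM0 : (0 : ℝ) < ((c * Q : ℕ) : ℝ) := by push_cast; positivity
  have hfl : ∀ i, ((cell (c * Q) x i : ℕ) : ℝ) ≤ ((c * Q : ℕ) : ℝ) * x i ∧
      ((c * Q : ℕ) : ℝ) * x i < (cell (c * Q) x i : ℕ) + 1 := fun i =>
    ⟨Nat.floor_le (mul_nonneg hM0.le (hx i).1), Nat.lt_floor_add_one _⟩
  rw [mem_cells]
  refine ⟨fun i => ?_, l, ?_, ?_⟩
  · have h1 : ((cell (c * Q) x i : ℕ) : ℝ) < ((c * Q : ℕ) : ℝ) :=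
      lt_of_le_of_lt (hfl i).1 (by nlinarith [(hx i).2])
    exact_mod_cast h1
  all_goals
    have h1 : ∑ i, (w i : ℝ) * (cell (c * Q) x i : ℕ) ≤ ((c * Q : ℕ) : ℝ) * ∑ i, (w i : ℝ) * x i := by
      rw [mul_sum]
      refine sum_le_sum fun i _ => ?_
      have := (hfl i).1
      have hw0 : (0 : ℝ) ≤ w i := by positivity
      nlinarith
    have h2 : ((c * Q : ℕ) : ℝ) * ∑ i, (w i : ℝ) * x i ≤
        ∑ i, (w i : ℝ) * (cell (c * Q) x i : ℕ) + d * Q := by
      have h3 : ((c * Q : ℕ) : ℝ) * ∑ i, (w i : ℝ) * x i ≤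
          ∑ i, ((w i : ℝ) * (cell (c * Q) x i : ℕ) + Q) := by
        rw [mul_sum]
        refine sum_le_sum fun i _ => ?_
        have h4 := (hfl i).2
        have hw0 : (0 : ℝ) ≤ w i := by positivity
        have hwQ : (w i : ℝ) ≤ Q := by exact_mod_cast hw i
        nlinarith
      rw [sum_add_distrib, sum_const, card_univ, Fintype.card_fin, nsmul_eq_mul] at h3
      exact h3
    rw [abs_le] at hl
    have h5 : ((c * Q : ℕ) : ℝ) * (1 / c) = Q := by push_cast; field_simp
    have h6 : ((c * Q : ℕ) : ℝ) * (∑ i, (w i : ℝ) * x i - l) ≤ Q := by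
      rw [← h5]; exact mul_le_mul_of_nonneg_left hl.2 hM0.le
    have h7 : -(Q : ℝ) ≤ ((c * Q : ℕ) : ℝ) * (∑ i, (w i : ℝ) * x i - l) := by
      rw [← h5, ← mul_neg]; exact mul_le_mul_of_nonneg_left hl.1 hM0.le
  · have h8 : ((c * Q : ℕ) : ℝ) * l - (d + 1) * Q ≤ ∑ i, (w i : ℝ) * (cell (c * Q) x i : ℕ) := by
      nlinarith
    exact_mod_cast h8
  · have h8 : ∑ i, (w i : ℝ) * (cell (c * Q) x i : ℕ) ≤ ((c * Q : ℕ) : ℝ) * l + Q := by
      nlinarith
    exact_mod_cast h8

lemma norm_lt_of_cell_eq {d M : ℕ} (hM : 1 ≤ M) (x y : Fin d → ℝ) (hx : ∀ i, 0 ≤ x i)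
    (hy : ∀ i, 0 ≤ y i) (h : cell M x = cell M y) : ‖x - y‖ < 1 / (M : ℝ) := by
  have hM0 : (0 : ℝ) < M := by exact_mod_cast hM
  rw [pi_norm_lt_iff (by positivity)]
  intro i
  rw [Pi.sub_apply, Real.norm_eq_abs, abs_lt]
  have h1 := congrFun h i
  have h2 : ((cell M x i : ℕ) : ℝ) ≤ (M : ℝ) * x i := Nat.floor_le (mul_nonneg hM0.le (hx i))
  have h3 : (M : ℝ) * x i < (cell M x i : ℕ) + 1 := Nat.lt_floor_add_one _
  have h4 : ((cell M y i : ℕ) : ℝ) ≤ (M : ℝ) * y i := Nat.floor_le (mul_nonneg hM0.le (hy i))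
  have h5 : (M : ℝ) * y i < (cell M y i : ℕ) + 1 := Nat.lt_floor_add_one _
  rw [h1] at h2 h3
  have h6 : x i - y i < 1 / (M : ℝ) := by
    rw [lt_div_iff₀ hM0]
    nlinarith
  have h7 : y i - x i < 1 / (M : ℝ) := by
    rw [lt_div_iff₀ hM0]
    nlinarith
  constructor <;> linarith

/-- the number of the close pairs -/
lemma close_pairs {d c Q : ℕ} (hd : 1 ≤ d) (hc : 1 ≤ c) (hQ : 1 ≤ Q) (w : Fin d → ℕ) (hw : ∀ i, w i ≤ Q)
    (i0 : Fin d) (hi0 : Q < 4 * w i0) (x : ℕ → Fin d → ℝ) (hx : ∀ k i, 0 ≤ x k i ∧ x k i < 1)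
    (hl : ∀ k < (c * Q) ^ d, ∃ l : ℤ, |∑ i, (w i : ℝ) * x k i - l| ≤ 1 / c) :
    ((c : ℝ) / ((d + 4) * (4 * d + 8)) - 1) * ((c * Q : ℕ) : ℝ) ^ d ≤
      (((range ((c * Q) ^ d) ×ˢ range ((c * Q) ^ d)).filter (fun kl : ℕ × ℕ => kl.1 ≠ kl.2 ∧
        ‖x kl.1 - x kl.2‖ < 1 / ((c * Q : ℕ) : ℝ))).card : ℝ) := by
  classical
  set M := c * Q with hM
  set N := M ^ d with hN
  have hM1 : 1 ≤ M := by rw [hM]; exact Nat.mul_pos hc hQ
  set A := cells d c Q w with hA
  set n : (Fin d → ℕ) → ℕ := fun a => ((range N).filter (fun k => cell M (x k) = a)).card with hn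
  have hmaps : ∀ k ∈ range N, cell M (x k) ∈ A := by
    intro k hk
    obtain ⟨l, h⟩ := hl k (mem_range.1 hk)
    exact cell_mem hc hQ w hw (x k) (hx k) l h
  have h1 : ∑ a ∈ A, n a = N := by
    have := Finset.card_eq_sum_card_fiberwise (f := fun k => cell M (x k)) (s := range N) (t := A)
      (fun k hk => hmaps k hk)
    rw [card_range] at this
    exact this.symm
  set P := (range N ×ˢ range N).filter (fun kl : ℕ × ℕ => cell M (x kl.1) = cell M (x kl.2)) with hP
  have h2 : P.card = ∑ a ∈ A, n a ^ 2 := by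
    rw [Finset.card_eq_sum_card_fiberwise (f := fun kl : ℕ × ℕ => cell M (x kl.1)) (s := P) (t := A)
      (fun kl hkl => hmaps kl.1 (mem_product.1 (mem_filter.1 hkl).1).1)]
    refine sum_congr rfl fun a _ => ?_
    rw [sq, hn]
    simp only
    rw [← card_product]
    congr 1
    ext ⟨k, l⟩
    simp only [hP, mem_filter, mem_product, mem_range]
    constructor
    · rintro ⟨⟨⟨h1, h2⟩, h3⟩, h4⟩
      exact ⟨⟨h1, h4⟩, h2, by rw [← h3]; exact h4⟩
    · rintro ⟨⟨h1, h2⟩, h3, h4⟩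
      exact ⟨⟨⟨h1, h3⟩, by rw [h2, h4]⟩, h2⟩
  have h3 : ((N : ℝ)) ^ 2 ≤ (A.card : ℝ) * P.card := by
    have h4 := sq_sum_le_card_mul_sum_sq (s := A) (f := fun a => (n a : ℝ))
    have h5 : ∑ a ∈ A, (n a : ℝ) = N := by exact_mod_cast h1
    have h6 : ∑ a ∈ A, (n a : ℝ) ^ 2 = P.card := by rw [h2]; push_cast; rfl
    rw [h5, h6] at h4
    exact h4
  have h4 : (A.card : ℝ) ≤ (Q * ((d + 4) * (4 * d + 8))) * (M : ℝ) ^ (d - 1) := by
    have := card_cells d c Q hc hQ w hw i0 hi0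
    exact_mod_cast this
  set C := (range N ×ˢ range N).filter (fun kl : ℕ × ℕ => kl.1 ≠ kl.2 ∧
        ‖x kl.1 - x kl.2‖ < 1 / (M : ℝ)) with hC
  have h5 : P ⊆ C ∪ (range N).image (fun k => (k, k)) := by
    rintro ⟨k, l⟩ hkl
    rw [hP, mem_filter, mem_product] at hkl
    rw [mem_union]
    by_cases h : k = l
    · subst h
      exact Or.inr (mem_image.2 ⟨k, hkl.1.1, rfl⟩)
    · refine Or.inl (mem_filter.2 ⟨mem_product.2 hkl.1, h, ?_⟩)
      exact norm_lt_of_cell_eq hM1 _ _ (fun i => (hx k i).1) (fun i => (hx l i).1) hkl.2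
  have h6 : (P.card : ℝ) ≤ C.card + N := by
    have h7 := (card_le_card h5).trans (card_union_le _ _)
    have h8 : ((range N).image (fun k => (k, k))).card ≤ N := by
      refine card_image_le.trans ?_
      rw [card_range]
    exact_mod_cast h7.trans (Nat.add_le_add_left h8 _)
  -- conclusion
  have hNr : (N : ℝ) = (M : ℝ) ^ d := by rw [hN]; push_cast; rfl
  have hMr : (M : ℝ) = c * Q := by rw [hM]; push_cast; rfl
  have hMpos : (0 : ℝ) < M := by exact_mod_cast hM1
  have hcr : (0 : ℝ) < c := by exact_mod_cast hc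
  set K : ℝ := ((d : ℝ) + 4) * (4 * d + 8) with hK
  have hKpos : 0 < K := by positivity
  have h7 : (A.card : ℝ) ≤ K * N / c := by
    refine h4.trans (le_of_eq ?_)
    rw [hNr, show (M : ℝ) ^ d = M ^ (d - 1) * M by rw [← pow_succ]; congr 1; omega]
    nth_rewrite 3 [hMr]
    field_simp
  have hNpos : (0 : ℝ) < N := by rw [hNr]; positivity
  have h8 : (c : ℝ) / K * N ≤ P.card := by
    have h9 : (N : ℝ) ^ 2 ≤ K * N / c * P.card :=
      h3.trans (mul_le_mul_of_nonneg_right h7 (by positivity))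
    have h10 : (N : ℝ) * ((c : ℝ) / K * N) ≤ N * P.card := by
      have h11 : K * N / c * P.card * (c / K) = N * P.card := by field_simp
      rw [← h11]
      have h12 : (N : ℝ) * ((c : ℝ) / K * N) = N ^ 2 * (c / K) := by ring
      rw [h12]
      exact mul_le_mul_of_nonneg_right h9 (by positivity)
    exact le_of_mul_le_mul_left h10 hNpos
  rw [← hNr]
  show (c / K - 1) * (N : ℝ) ≤ (C.card : ℝ)
  linarith

end Q257.PPC
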