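import Mathlib

/-!
# Linear forms on the torus: independence, and a Borel–Cantelli lemma for pairwise independent events
-/

set_option autoImplicit false

open MeasureTheory Set Filter

namespace Q257.PPC

/-- the torus of dimension `d` -/
abbrev T (d : ℕ) := Fin d → UnitAddCircle

/-- the linear form `α ↦ ∑ w_i α_i` on the torus -/
def lin {d : ℕ} (w : Fin d → ℤ) : T d →+ UnitAddCircle where
  toFun α := ∑ i, w i • α i
  map_zero' := by simp
  map_add' a b := by simp [Finset.sum_add_distrib, smul_add]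

lemma lin_apply {d : ℕ} (w : Fin d → ℤ) (α : T d) : lin w α = ∑ i, w i • α i := rfl

lemma lin_coe {d : ℕ} (w : Fin d → ℤ) (r : Fin d → ℝ) :
    lin w (fun i => (r i : UnitAddCircle)) = ((∑ i, (w i : ℝ) * r i : ℝ) : UnitAddCircle) := by
  rw [lin_apply]
  have h : ∀ i, w i • (r i : UnitAddCircle) = (((w i : ℝ) * r i : ℝ) : UnitAddCircle) := by
    intro i
    rw [← AddCircle.coe_zsmul, zsmul_eq_mul]
  simp only [h]
  exact (map_sum (QuotientAddGroup.mk' (AddSubgroup.zmultiples (1 : ℝ)))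
    (fun i => (w i : ℝ) * r i) Finset.univ).symm

lemma continuous_lin {d : ℕ} (w : Fin d → ℤ) : Continuous (lin w) := by
  show Continuous (fun α : T d => ∑ i, w i • α i)
  fun_prop

lemma surj_pair {d : ℕ} (w w' : Fin d → ℤ) (a b : Fin d) (h : w a * w' b - w b * w' a ≠ 0) :
    Function.Surjective ((lin w).prod (lin w')) := by
  rintro ⟨x, y⟩
  obtain ⟨x, rfl⟩ := QuotientAddGroup.mk_surjective x
  obtain ⟨y, rfl⟩ := QuotientAddGroup.mk_surjective y
  have hD : ((w a : ℝ) * w' b - w b * w' a) ≠ 0 := by exact_mod_cast h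
  set D : ℝ := (w a : ℝ) * w' b - w b * w' a with hDdef
  set s : ℝ := (x * w' b - y * w b) / D with hs
  set t : ℝ := (w a * y - w' a * x) / D with ht
  have key : ∀ v : Fin d → ℤ, lin v (fun i =>
      (((Pi.single a s : Fin d → ℝ) i + (Pi.single b t : Fin d → ℝ) i : ℝ) : UnitAddCircle)) =
      (((v a : ℝ) * s + v b * t : ℝ) : UnitAddCircle) := by
    intro v
    rw [lin_coe]
    congr 1
    simp [mul_add, Finset.sum_add_distrib, Pi.single_apply, mul_ite, Finset.sum_ite_eq']
  refine ⟨fun i => (((Pi.single a s : Fin d → ℝ) i + (Pi.single b t : Fin d → ℝ) i : ℝ) :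
    UnitAddCircle), ?_⟩
  rw [AddMonoidHom.prod_apply, key, key]
  have h1 : (w a : ℝ) * s + w b * t = x := by
    rw [hs, ht]
    field_simp
    rw [hDdef]
    ring
  have h2 : (w' a : ℝ) * s + w' b * t = y := by
    rw [hs, ht]
    field_simp
    rw [hDdef]
    ring
  rw [h1, h2]

lemma surj_lin {d : ℕ} (w : Fin d → ℤ) (a : Fin d) (h : w a ≠ 0) : Function.Surjective (lin w) := by
  intro x
  obtain ⟨x, rfl⟩ := QuotientAddGroup.mk_surjective x
  have hD : (w a : ℝ) ≠ 0 := by exact_mod_cast h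
  refine ⟨fun i => (((Pi.single a (x / w a) : Fin d → ℝ) i : ℝ) : UnitAddCircle), ?_⟩
  rw [lin_coe]
  have : ∑ i, (w i : ℝ) * (Pi.single a (x / w a) : Fin d → ℝ) i = x := by
    simp [Pi.single_apply, mul_ite, Finset.sum_ite_eq']
    field_simp
  rw [this]

/-- the event `‖∑ w_i α_i‖ ≤ δ` -/
def E {d : ℕ} (w : Fin d → ℤ) (δ : ℝ) : Set (T d) := {α | ‖lin w α‖ ≤ δ}

lemma E_eq {d : ℕ} (w : Fin d → ℤ) (δ : ℝ) : E w δ = lin w ⁻¹' Metric.closedBall 0 δ := by
  ext α
  simp [E]

lemma measurableSet_E {d : ℕ} (w : Fin d → ℤ) (δ : ℝ) : MeasurableSet (E w δ) := by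
  rw [E_eq]
  exact (continuous_lin w).measurable Metric.isClosed_closedBall.measurableSet

instance : IsProbabilityMeasure (volume : Measure UnitAddCircle) :=
  ⟨by rw [AddCircle.measure_univ]; simp⟩

lemma measure_E {d : ℕ} (w : Fin d → ℤ) (a : Fin d) (h : w a ≠ 0) (δ : ℝ) (hδ : 2 * δ ≤ 1) :
    volume (E w δ) = ENNReal.ofReal (2 * δ) := by
  have hmp : MeasurePreserving (lin w) (volume : Measure (T d)) (volume : Measure UnitAddCircle) :=
    AddMonoidHom.measurePreserving (continuous_lin w) (surj_lin w a h) (by simp)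
  rw [E_eq, hmp.measure_preimage Metric.isClosed_closedBall.measurableSet.nullMeasurableSet,
    AddCircle.volume_closedBall, min_eq_right hδ]

lemma measure_E_inter {d : ℕ} (w w' : Fin d → ℤ) (a b : Fin d)
    (h : w a * w' b - w b * w' a ≠ 0) (δ δ' : ℝ) (hδ : 2 * δ ≤ 1) (hδ' : 2 * δ' ≤ 1) :
    volume (E w δ ∩ E w' δ') = volume (E w δ) * volume (E w' δ') := by
  have hH : (volume : Measure (UnitAddCircle × UnitAddCircle)).IsAddHaarMeasure := by
    rw [Measure.volume_eq_prod]
    infer_instance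
  have hmp : MeasurePreserving ((lin w).prod (lin w')) (volume : Measure (T d))
      (volume : Measure (UnitAddCircle × UnitAddCircle)) :=
    AddMonoidHom.measurePreserving ((continuous_lin w).prodMk (continuous_lin w'))
      (surj_pair w w' a b h) (by simp)
  have h1 : E w δ ∩ E w' δ' = ((lin w).prod (lin w')) ⁻¹'
      (Metric.closedBall 0 δ ×ˢ Metric.closedBall 0 δ') := by
    ext α
    simp [E]
  obtain ⟨c, hc⟩ : ∃ c, w c ≠ 0 := by
    by_contra hcon
    push Not at hcon
    exact h (by rw [hcon, hcon]; ring)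
  obtain ⟨c', hc'⟩ : ∃ c, w' c ≠ 0 := by
    by_contra hcon
    push Not at hcon
    exact h (by rw [hcon, hcon]; ring)
  rw [h1, hmp.measure_preimage (Metric.isClosed_closedBall.measurableSet.prod
    Metric.isClosed_closedBall.measurableSet).nullMeasurableSet, Measure.volume_eq_prod,
    Measure.prod_prod, AddCircle.volume_closedBall, AddCircle.volume_closedBall,
    min_eq_right hδ, min_eq_right hδ', measure_E w c hc δ hδ, measure_E w' c' hc' δ' hδ']

/-- second moment: for pairwise independent events the probability that none of them occurs is at most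
the inverse of the sum of their probabilities -/
lemma second_moment {Ω ι : Type*} [MeasurableSpace Ω] (μ : Measure Ω) [IsProbabilityMeasure μ]
    (s : Finset ι) (A : ι → Set Ω) (hA : ∀ i ∈ s, MeasurableSet (A i))
    (hind : ∀ i ∈ s, ∀ j ∈ s, i ≠ j → μ.real (A i ∩ A j) = μ.real (A i) * μ.real (A j)) :
    μ.real (⋂ i ∈ s, (A i)ᶜ) * ∑ i ∈ s, μ.real (A i) ≤ 1 := by
  classical
  set σ : ℝ := ∑ i ∈ s, μ.real (A i) with hσ
  have hσ0 : 0 ≤ σ := Finset.sum_nonneg fun _ _ => measureReal_nonneg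
  set Z : Set Ω := ⋂ i ∈ s, (A i)ᶜ with hZ
  have hZm : MeasurableSet Z := Finset.measurableSet_biInter s fun i hi => (hA i hi).compl
  let X : Ω → ℝ := fun ω => ∑ i ∈ s, (A i).indicator (fun _ => (1 : ℝ)) ω
  have hXi : ∀ i ∈ s, Integrable (fun ω => (A i).indicator (fun _ => (1 : ℝ)) ω) μ := fun i hi =>
    (integrable_const (1 : ℝ)).indicator (hA i hi)
  have hX : Integrable X μ := integrable_finsetSum _ hXi
  have hIX : ∫ ω, X ω ∂μ = σ := by
    show ∫ ω, ∑ i ∈ s, (A i).indicator (fun _ => (1 : ℝ)) ω ∂μ = σ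
    rw [integral_finsetSum _ hXi]
    refine Finset.sum_congr rfl fun i hi => ?_
    rw [integral_indicator (hA i hi)]
    simp
  have hXX : ∀ ω, X ω ^ 2 = ∑ i ∈ s, ∑ j ∈ s, (A i ∩ A j).indicator (fun _ => (1 : ℝ)) ω := by
    intro ω
    show (∑ i ∈ s, (A i).indicator (fun _ => (1 : ℝ)) ω) ^ 2 = _
    rw [sq, Finset.sum_mul_sum]
    refine Finset.sum_congr rfl fun i _ => Finset.sum_congr rfl fun j _ => ?_
    simp only [Set.indicator_apply, mem_inter_iff]
    split_ifs <;> simp_all
  have hXXi : ∀ i ∈ s, ∀ j ∈ s,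
      Integrable (fun ω => (A i ∩ A j).indicator (fun _ => (1 : ℝ)) ω) μ := fun i hi j hj =>
    (integrable_const (1 : ℝ)).indicator ((hA i hi).inter (hA j hj))
  have hX2 : Integrable (fun ω => X ω ^ 2) μ := by
    simp only [hXX]
    exact integrable_finsetSum _ fun i hi => integrable_finsetSum _ fun j hj => hXXi i hi j hj
  have hIX2 : ∫ ω, X ω ^ 2 ∂μ ≤ σ + σ ^ 2 := by
    simp only [hXX]
    rw [integral_finsetSum _ fun i hi => integrable_finsetSum _ fun j hj => hXXi i hi j hj]
    have h1 : ∀ i ∈ s, ∫ ω, ∑ j ∈ s, (A i ∩ A j).indicator (fun _ => (1 : ℝ)) ω ∂μ =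
        ∑ j ∈ s, μ.real (A i ∩ A j) := by
      intro i hi
      rw [integral_finsetSum _ fun j hj => hXXi i hi j hj]
      refine Finset.sum_congr rfl fun j hj => ?_
      rw [integral_indicator ((hA i hi).inter (hA j hj))]
      simp
    rw [Finset.sum_congr rfl h1, sq σ, hσ, Finset.sum_mul_sum, ← Finset.sum_add_distrib]
    refine Finset.sum_le_sum fun i hi => ?_
    rw [← Finset.add_sum_erase _ _ hi, ← Finset.add_sum_erase s (fun j => μ.real (A i) * μ.real (A j)) hi,
      inter_self]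
    have h2 : ∑ j ∈ s.erase i, μ.real (A i ∩ A j) = ∑ j ∈ s.erase i, μ.real (A i) * μ.real (A j) :=
      Finset.sum_congr rfl fun j hj =>
        hind i hi j (Finset.mem_of_mem_erase hj) (Finset.ne_of_mem_erase hj).symm
    rw [h2]
    have h3 : 0 ≤ μ.real (A i) * μ.real (A i) := mul_self_nonneg _
    linarith
  have hvar : ∫ ω, (X ω - σ) ^ 2 ∂μ ≤ σ := by
    have h1 : ∀ ω, (X ω - σ) ^ 2 = X ω ^ 2 - 2 * σ * X ω + σ ^ 2 := fun ω => by ring
    simp only [h1]
    rw [integral_add (f := fun ω => X ω ^ 2 - 2 * σ * X ω) (hX2.sub (hX.const_mul _))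
      (integrable_const _), integral_sub hX2 (hX.const_mul _), integral_const_mul, hIX]
    simp only [integral_const, probReal_univ, smul_eq_mul, one_mul]
    nlinarith [hIX2]
  have hint : Integrable (fun ω => (X ω - σ) ^ 2) μ := by
    have h1 : (fun ω => (X ω - σ) ^ 2) = fun ω => X ω ^ 2 - 2 * σ * X ω + σ ^ 2 := by
      funext ω; ring
    rw [h1]
    exact (hX2.sub (hX.const_mul _)).add (integrable_const _)
  have hlow : σ ^ 2 * μ.real Z ≤ ∫ ω, (X ω - σ) ^ 2 ∂μ := by
    calc σ ^ 2 * μ.real Z = ∫ ω in Z, (X ω - σ) ^ 2 ∂μ := by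
          rw [setIntegral_congr_fun (g := fun _ => σ ^ 2) hZm]
          · simp [mul_comm]
          · intro ω hω
            have h0 : X ω = 0 := by
              refine Finset.sum_eq_zero fun i hi => ?_
              rw [Set.indicator_of_notMem]
              exact (mem_iInter₂.1 hω i hi)
            simp [h0]
      _ ≤ ∫ ω, (X ω - σ) ^ 2 ∂μ :=
          setIntegral_le_integral hint (Filter.Eventually.of_forall fun ω => sq_nonneg _)
  rcases hσ0.eq_or_lt with h | h
  · rw [← h]; simp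
  · have h4 : σ * (μ.real Z * σ) ≤ σ * 1 := by nlinarith [hlow, hvar]
    exact le_of_mul_le_mul_left h4 h

end Q257.PPC
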