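import Mathlib
import Pool.Agent.Q257.PPC.Torus

/-!
# Many non-parallel integer vectors, and the divergence part of the theorem of Khinchin and Groshev
-/

set_option autoImplicit false

open MeasureTheory Set Filter

namespace Q257.PPC

open Finset in
/-- the vectors in `[1, Q]^d` whose first two coordinates are coprime and whose maximum is above `Q / 4` -/
def W (n Q : ℕ) : Finset (Fin (n + 2) → ℕ) :=
  (Fintype.piFinset (fun _ => Finset.Ioc 0 Q)).filter
    (fun w => Nat.Coprime (w 0) (w 1) ∧ ∃ i, Q < 4 * w i)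

lemma mem_W {n Q : ℕ} {w : Fin (n + 2) → ℕ} : w ∈ W n Q ↔ (∀ i, 0 < w i ∧ w i ≤ Q) ∧
    Nat.Coprime (w 0) (w 1) ∧ ∃ i, Q < 4 * w i := by
  simp [W, Fintype.mem_piFinset]

/-- `∑_{2 ≤ k ≤ K} 1 / k² ≤ 3 / 4 - 1 / K` -/
lemma sum_inv_sq (K : ℕ) (hK : 2 ≤ K) :
    ∑ k ∈ Finset.Ico 2 (K + 1), (1 : ℝ) / (k : ℝ) ^ 2 ≤ 3 / 4 - 1 / K := by
  induction K, hK using Nat.le_induction with
  | base => norm_num
  | succ K hK ih =>
    rw [Finset.sum_Ico_succ_top (by omega)]
    have hK' : (2 : ℝ) ≤ K := by exact_mod_cast hK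
    have h1 : (1 : ℝ) / ((K + 1 : ℕ) : ℝ) ^ 2 ≤ 1 / K - 1 / (K + 1 : ℕ) := by
      push_cast
      rw [div_sub_div _ _ (by positivity) (by positivity), div_le_div_iff₀ (by positivity) (by positivity)]
      nlinarith
    linarith

open Finset in
/-- the vectors whose first two coordinates are divisible by `k` -/
def NW (n Q k : ℕ) : Finset (Fin (n + 2) → ℕ) :=
  Fintype.piFinset (fun i => if i.val < 2 then (Finset.Ioc 0 Q).filter (fun x => k ∣ x)
    else Finset.Ioc 0 Q)

lemma card_NW (n Q k : ℕ) : (NW n Q k).card = (Q / k) ^ 2 * Q ^ n := by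
  have h : ∀ i : Fin (n + 2), (if i.val < 2 then (Finset.Ioc 0 Q).filter (fun x => k ∣ x)
    else Finset.Ioc 0 Q).card = if i.val < 2 then Q / k else Q := by
    intro i
    split_ifs
    · exact Nat.Ioc_filter_dvd_card_eq_div Q k
    · simp
  rw [NW, Fintype.card_piFinset]
  simp only [h]
  rw [Fin.prod_univ_succ, Fin.prod_univ_succ]
  simp [sq, mul_assoc]

open Finset in
lemma card_W (n j : ℕ) (hj : 1 ≤ j) :
    (3 / 16 : ℝ) * ((4 : ℝ) ^ j) ^ (n + 2) ≤ ((W n (4 ^ j)).card : ℝ) := by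
  classical
  set Q : ℕ := 4 ^ j with hQ
  have hQ4 : 4 ≤ Q := by
    calc 4 = 4 ^ 1 := by norm_num
      _ ≤ 4 ^ j := Nat.pow_le_pow_right (by norm_num) hj
  have hQr : ((Q : ℕ) : ℝ) = (4 : ℝ) ^ j := by rw [hQ]; push_cast; rfl
  rw [← hQr]
  have hdiv : 4 ∣ Q := by
    rw [hQ]
    exact dvd_pow_self 4 (by omega)
  obtain ⟨R, hR⟩ := hdiv
  set B : Finset (Fin (n + 2) → ℕ) := Fintype.piFinset (fun _ => Finset.Ioc 0 Q) with hB
  set S : Finset (Fin (n + 2) → ℕ) := Fintype.piFinset (fun _ => Finset.Ioc 0 R) with hS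
  have hcover : B ⊆ W n Q ∪ ((Finset.Ico 2 (Q + 1)).biUnion (NW n Q) ∪ S) := by
    intro w hw
    rw [hB, Fintype.mem_piFinset] at hw
    have hw' : ∀ i, 0 < w i ∧ w i ≤ Q := fun i => Finset.mem_Ioc.1 (hw i)
    by_cases h1 : Nat.Coprime (w 0) (w 1)
    · by_cases h2 : ∃ i, Q < 4 * w i
      · exact mem_union_left _ (mem_W.2 ⟨hw', h1, h2⟩)
      · push Not at h2
        refine mem_union_right _ (mem_union_right _ ?_)
        rw [hS, Fintype.mem_piFinset]
        intro i
        rw [Finset.mem_Ioc]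
        have := h2 i
        exact ⟨(hw' i).1, by omega⟩
    · refine mem_union_right _ (mem_union_left _ ?_)
      rw [Finset.mem_biUnion]
      refine ⟨Nat.gcd (w 0) (w 1), ?_, ?_⟩
      · rw [Finset.mem_Ico]
        have hpos : 0 < Nat.gcd (w 0) (w 1) := Nat.gcd_pos_of_pos_left _ (hw' 0).1
        have hne : Nat.gcd (w 0) (w 1) ≠ 1 := h1
        have hle : Nat.gcd (w 0) (w 1) ≤ w 0 := Nat.gcd_le_left _ (hw' 0).1
        have := (hw' 0).2
        omega
      · rw [NW, Fintype.mem_piFinset]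
        intro i
        split_ifs with hi
        · rw [Finset.mem_filter, Finset.mem_Ioc]
          refine ⟨hw' i, ?_⟩
          have : i = 0 ∨ i = 1 := by
            rcases (by omega : i.val = 0 ∨ i.val = 1) with h | h
            · exact Or.inl (Fin.ext h)
            · exact Or.inr (Fin.ext h)
          rcases this with rfl | rfl
          · exact Nat.gcd_dvd_left _ _
          · exact Nat.gcd_dvd_right _ _
        · exact hw i
  have hcardB : B.card = Q ^ (n + 2) := by
    rw [hB, Fintype.card_piFinset]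
    simp
  have hcardS : S.card = R ^ (n + 2) := by
    rw [hS, Fintype.card_piFinset]
    simp
  have h1 : (B.card : ℝ) ≤ (W n Q).card + ((∑ k ∈ Finset.Ico 2 (Q + 1), ((NW n Q k).card : ℝ)) + S.card) := by
    have h2 := (Finset.card_le_card hcover).trans ((Finset.card_union_le _ _).trans
      (Nat.add_le_add_left ((Finset.card_union_le _ _).trans (Nat.add_le_add_right
        (Finset.card_biUnion_le) _)) _))
    exact_mod_cast h2
  have h2 : ∑ k ∈ Finset.Ico 2 (Q + 1), ((NW n Q k).card : ℝ) ≤ (3 / 4) * (Q : ℝ) ^ (n + 2) := by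
    calc ∑ k ∈ Finset.Ico 2 (Q + 1), ((NW n Q k).card : ℝ)
        ≤ ∑ k ∈ Finset.Ico 2 (Q + 1), (1 / (k : ℝ) ^ 2) * (Q : ℝ) ^ (n + 2) := by
          refine Finset.sum_le_sum fun k hk => ?_
          have hk2 : 2 ≤ k := (Finset.mem_Ico.1 hk).1
          rw [card_NW]
          push_cast
          have h3 : ((Q / k : ℕ) : ℝ) ≤ (Q : ℝ) / k := Nat.cast_div_le
          have hk0 : (0 : ℝ) < k := by exact_mod_cast (by omega : 0 < k)
          calc ((Q / k : ℕ) : ℝ) ^ 2 * (Q : ℝ) ^ n ≤ ((Q : ℝ) / k) ^ 2 * (Q : ℝ) ^ n := by gcongr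
            _ = (1 / (k : ℝ) ^ 2) * (Q : ℝ) ^ (n + 2) := by
                rw [pow_add]; field_simp
      _ = (∑ k ∈ Finset.Ico 2 (Q + 1), (1 / (k : ℝ) ^ 2)) * (Q : ℝ) ^ (n + 2) := by
          rw [Finset.sum_mul]
      _ ≤ (3 / 4) * (Q : ℝ) ^ (n + 2) := by
          have h3 := sum_inv_sq Q (by omega)
          have h4 : (0 : ℝ) ≤ 1 / (Q : ℝ) := by positivity
          gcongr
          linarith
  have h3 : (S.card : ℝ) ≤ (1 / 16) * (Q : ℝ) ^ (n + 2) := by
    rw [hcardS, hR]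
    push_cast
    have h4 : (16 : ℝ) ≤ 4 ^ (n + 2) := by
      calc (16 : ℝ) = 4 ^ 2 := by norm_num
        _ ≤ 4 ^ (n + 2) := pow_le_pow_right₀ (by norm_num) (by omega)
    rw [mul_pow]
    have h5 : (0 : ℝ) ≤ (R : ℝ) ^ (n + 2) := by positivity
    nlinarith
  have h4 : (B.card : ℝ) = (Q : ℝ) ^ (n + 2) := by
    rw [hcardB]; push_cast; rfl
  rw [h4] at h1
  linarith

/-- two different vectors whose first two coordinates are coprime are not parallel -/
lemma minor_ne_zero {n : ℕ} (w w' : Fin (n + 2) → ℕ) (_hw : ∀ i, 0 < w i) (hw' : ∀ i, 0 < w' i)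
    (hc : Nat.Coprime (w 0) (w 1)) (hc' : Nat.Coprime (w' 0) (w' 1)) (hne : w ≠ w') :
    ∃ i, (w 0 : ℤ) * w' i - w i * w' 0 ≠ 0 := by
  by_contra hcon
  push Not at hcon
  have h : ∀ i, w 0 * w' i = w i * w' 0 := fun i => by
    have := hcon i
    have h2 : (w 0 : ℤ) * w' i = w i * w' 0 := by linarith
    exact_mod_cast h2
  have h1 := h 1
  have hd : w 0 ∣ w' 0 := by
    have h3 : w 0 ∣ w 1 * w' 0 := ⟨w' 1, h1.symm⟩
    exact hc.dvd_of_dvd_mul_left h3
  have hd' : w' 0 ∣ w 0 := by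
    have h3 : w' 0 ∣ w 0 * w' 1 := ⟨w 1, by rw [h1]; ring⟩
    exact hc'.dvd_of_dvd_mul_right h3
  have h0 : w 0 = w' 0 := Nat.dvd_antisymm hd hd'
  apply hne
  funext i
  have h4 := h i
  rw [h0, mul_comm] at h4
  exact (Nat.eq_of_mul_eq_mul_right (hw' 0) h4).symm

/-- the radius of the events at the scale `4 ^ j` -/
noncomputable def del (n : ℕ) (ε : ℝ) (j : ℕ) : ℝ := ε / (((4 : ℝ) ^ j) ^ (n + 2) * j)

/-- the integer vector of a vector of natural numbers -/
def zc {n : ℕ} (w : Fin n → ℕ) : Fin n → ℤ := fun i => (w i : ℤ)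

theorem ae_torus (n : ℕ) (ε : ℝ) (hε : 0 < ε) (hε2 : 2 * ε ≤ 1) :
    ∀ᵐ α : T (n + 2), ∀ J : ℕ, ∃ j, J ≤ j ∧ ∃ w ∈ W n (4 ^ j), ‖lin (zc w) α‖ ≤ del n ε j := by
  rw [ae_all_iff]
  intro J
  -- it suffices to treat `J + 1`
  set J' := J + 1 with hJ'
  have hdel : ∀ j, J' ≤ j → 0 < del n ε j ∧ 2 * del n ε j ≤ 1 := by
    intro j hj
    have hj1 : (1 : ℝ) ≤ j := by exact_mod_cast (by omega : 1 ≤ j)
    have h1 : (1 : ℝ) ≤ ((4 : ℝ) ^ j) ^ (n + 2) := one_le_pow₀ (one_le_pow₀ (by norm_num))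
    have h2 : (1 : ℝ) ≤ ((4 : ℝ) ^ j) ^ (n + 2) * j := by nlinarith
    constructor
    · unfold del; positivity
    · have h3 : del n ε j ≤ ε := by
        unfold del
        exact div_le_self hε.le h2
      linarith
  let Z : Set (T (n + 2)) := {α | ∀ j, J' ≤ j → ∀ w ∈ W n (4 ^ j), ¬ ‖lin (zc w) α‖ ≤ del n ε j}
  have hZ : volume Z = 0 := by
    let s : ℕ → Finset (Σ _ : ℕ, (Fin (n + 2) → ℕ)) := fun K =>
      (Finset.Ico J' K).sigma (fun j => W n (4 ^ j))
    let A : (Σ _ : ℕ, (Fin (n + 2) → ℕ)) → Set (T (n + 2)) := fun p => E (zc p.2) (del n ε p.1)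
    have hsub : ∀ K, Z ⊆ ⋂ p ∈ s K, (A p)ᶜ := by
      intro K α hα
      rw [mem_iInter₂]
      rintro ⟨j, w⟩ hp
      rw [Finset.mem_sigma, Finset.mem_Ico] at hp
      exact hα j hp.1.1 w hp.2
    have hmes : ∀ p, MeasurableSet (A p) := fun p => measurableSet_E _ _
    have hreal : ∀ K, ∀ p ∈ s K, (volume : Measure (T (n + 2))).real (A p) = 2 * del n ε p.1 := by
      rintro K ⟨j, w⟩ hp
      rw [Finset.mem_sigma, Finset.mem_Ico] at hp
      obtain ⟨h1, h2⟩ := hdel j hp.1.1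
      have hw := (mem_W.1 hp.2).1 0
      rw [measureReal_def]
      show (volume (E (zc w) (del n ε j))).toReal = _
      rw [measure_E (zc w) 0 (by unfold zc; exact_mod_cast hw.1.ne') _ h2,
        ENNReal.toReal_ofReal (by positivity)]
    have hind : ∀ K, ∀ p ∈ s K, ∀ q ∈ s K, p ≠ q →
        (volume : Measure (T (n + 2))).real (A p ∩ A q) =
          (volume : Measure (T (n + 2))).real (A p) * (volume : Measure (T (n + 2))).real (A q) := by
      rintro K ⟨j, w⟩ hp ⟨k, v⟩ hq hpq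
      rw [Finset.mem_sigma, Finset.mem_Ico] at hp hq
      obtain ⟨-, h2⟩ := hdel j hp.1.1
      obtain ⟨-, h4⟩ := hdel k hq.1.1
      obtain ⟨hw1, hw2, i1, hi1⟩ := mem_W.1 hp.2
      obtain ⟨hv1, hv2, i2, hi2⟩ := mem_W.1 hq.2
      have hne : w ≠ v := by
        intro h
        subst h
        rcases lt_trichotomy j k with h | h | h
        · have h5 : 4 ^ (j + 1) ≤ 4 ^ k := Nat.pow_le_pow_right (by norm_num) h
          have h6 := (hw1 i2).2
          rw [pow_succ] at h5
          simp only at hi2 h6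
          omega
        · subst h; exact hpq rfl
        · have h5 : 4 ^ (k + 1) ≤ 4 ^ j := Nat.pow_le_pow_right (by norm_num) h
          have h6 := (hv1 i1).2
          rw [pow_succ] at h5
          simp only at hi1 h6
          omega
      obtain ⟨i, hi⟩ := minor_ne_zero w v (fun i => (hw1 i).1) (fun i => (hv1 i).1) hw2 hv2 hne
      rw [measureReal_def, measureReal_def, measureReal_def, ← ENNReal.toReal_mul]
      congr 1
      exact measure_E_inter (zc w) (zc v) 0 i (by unfold zc; exact hi) _ _ h2 h4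
    have hbound : ∀ K, (volume : Measure (T (n + 2))).real Z *
        (3 / 8 * ε * ∑ j ∈ Finset.Ico J' K, (1 : ℝ) / j) ≤ 1 := by
      intro K
      have h1 := second_moment (volume : Measure (T (n + 2))) (s K) A (fun p _ => hmes p) (hind K)
      have h2 : 3 / 8 * ε * ∑ j ∈ Finset.Ico J' K, (1 : ℝ) / j ≤
          ∑ p ∈ s K, (volume : Measure (T (n + 2))).real (A p) := by
        rw [Finset.sum_congr rfl (hreal K), Finset.sum_sigma, Finset.mul_sum]
        refine Finset.sum_le_sum fun j hj => ?_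
        rw [Finset.mem_Ico] at hj
        have hj1 : (1 : ℝ) ≤ j := by exact_mod_cast (by omega : 1 ≤ j)
        simp only [Finset.sum_const, nsmul_eq_mul]
        have h3 := card_W n j (by omega)
        have h4 : (0 : ℝ) < ((4 : ℝ) ^ j) ^ (n + 2) := by positivity
        calc 3 / 8 * ε * (1 / (j : ℝ)) = (3 / 16 * ((4 : ℝ) ^ j) ^ (n + 2)) * (2 * del n ε j) := by
              unfold del; field_simp; ring
          _ ≤ ((W n (4 ^ j)).card : ℝ) * (2 * del n ε j) := by
              have h5 := (hdel j hj.1).1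
              gcongr
      have h3 : (volume : Measure (T (n + 2))).real Z ≤
          (volume : Measure (T (n + 2))).real (⋂ p ∈ s K, (A p)ᶜ) := measureReal_mono (hsub K)
      have h4 : (0 : ℝ) ≤ 3 / 8 * ε * ∑ j ∈ Finset.Ico J' K, (1 : ℝ) / j := by positivity
      calc _ ≤ (volume : Measure (T (n + 2))).real (⋂ p ∈ s K, (A p)ᶜ) *
            ∑ p ∈ s K, (volume : Measure (T (n + 2))).real (A p) :=
            mul_le_mul h3 h2 h4 measureReal_nonneg
        _ ≤ 1 := h1
    have hdiv : Tendsto (fun K => ∑ j ∈ Finset.Ico J' K, (1 : ℝ) / j) atTop atTop := by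
      have h1 := Real.tendsto_sum_range_one_div_nat_succ_atTop
      have h2 : Tendsto (fun K => ∑ j ∈ Finset.range K, (1 : ℝ) / j) atTop atTop := by
        have h3 : ∀ K, ∑ j ∈ Finset.range (K + 1), (1 : ℝ) / j = ∑ j ∈ Finset.range K, (1 : ℝ) / (j + 1) := by
          intro K
          rw [Finset.sum_range_succ']
          simp
        rw [← tendsto_add_atTop_iff_nat 1]
        simpa only [h3] using h1
      have h3 : ∀ᶠ K in atTop, ∑ j ∈ Finset.range K, (1 : ℝ) / j - ∑ j ∈ Finset.range J', (1 : ℝ) / j =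
          ∑ j ∈ Finset.Ico J' K, (1 : ℝ) / j := by
        filter_upwards [eventually_ge_atTop J'] with K hK
        rw [Finset.sum_Ico_eq_sub _ hK]
      refine Tendsto.congr' h3 ?_
      exact tendsto_atTop_add_const_right _ _ h2
    have hzero : (volume : Measure (T (n + 2))).real Z = 0 := by
      by_contra hne
      have hpos : 0 < (volume : Measure (T (n + 2))).real Z :=
        lt_of_le_of_ne measureReal_nonneg (Ne.symm hne)
      have h1 := (hdiv.const_mul_atTop (by positivity : 0 < 3 / 8 * ε)).const_mul_atTop hpos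
      obtain ⟨K, hK⟩ := (h1.eventually_gt_atTop 1).exists
      exact absurd (hbound K) (not_le.2 hK)
    rw [measureReal_def, ENNReal.toReal_eq_zero_iff] at hzero
    rcases hzero with h | h
    · exact h
    · exact absurd h (measure_ne_top _ _)
  have hae : ∀ᵐ α : T (n + 2), α ∉ Z := measure_eq_zero_iff_ae_notMem.1 hZ
  filter_upwards [hae] with α hα
  by_contra hcon
  push Not at hcon
  exact hα fun j hj w hw h => absurd h (not_le.2 (hcon j (by omega) w hw))

/-- transfer of null sets from the torus to the space -/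
lemma ae_of_torus {d : ℕ} {P : T d → Prop} (h : ∀ᵐ t : T d, P t) :
    ∀ᵐ α : Fin d → ℝ, P (fun i => (α i : UnitAddCircle)) := by
  have hcov : (⋃ z : Fin d → ℤ, Set.univ.pi fun i => Ioc (z i : ℝ) (z i + 1)) = Set.univ := by
    rw [eq_univ_iff_forall]
    intro α
    rw [mem_iUnion]
    refine ⟨fun i => ⌈α i⌉ - 1, fun i _ => ?_⟩
    rw [mem_Ioc]
    have h1 := Int.ceil_lt_add_one (α i)
    have h2 := Int.le_ceil (α i)
    push_cast
    constructor <;> linarith
  rw [← Measure.restrict_univ (μ := (volume : Measure (Fin d → ℝ))), ← hcov,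
    ae_restrict_iUnion_iff]
  intro z
  have hmp : MeasurePreserving (fun (α : Fin d → ℝ) i => (α i : UnitAddCircle))
      (Measure.pi fun i => (volume : Measure ℝ).restrict (Ioc (z i : ℝ) (z i + 1)))
      (Measure.pi fun _ => (volume : Measure UnitAddCircle)) :=
    measurePreserving_pi _ _ (fun i => UnitAddCircle.measurePreserving_mk (z i : ℝ))
  have h2 := hmp.quasiMeasurePreserving.ae h
  rw [volume_pi, Measure.restrict_pi_pi]
  exact h2

theorem ae_space (n : ℕ) (ε : ℝ) (hε : 0 < ε) (hε2 : 2 * ε ≤ 1) :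
    ∀ᵐ α : Fin (n + 2) → ℝ, ∀ J : ℕ, ∃ j, J ≤ j ∧ ∃ w ∈ W n (4 ^ j), ∃ m : ℤ,
      |∑ i, (w i : ℝ) * α i - m| ≤ del n ε j := by
  have h := ae_of_torus (ae_torus n ε hε hε2)
  filter_upwards [h] with α hα J
  obtain ⟨j, hj, w, hw, h1⟩ := hα J
  rw [lin_coe, UnitAddCircle.norm_eq] at h1
  refine ⟨j, hj, w, hw, round (∑ i, ((zc w i : ℤ) : ℝ) * α i), ?_⟩
  have h2 : ∑ i, ((zc w i : ℤ) : ℝ) * α i = ∑ i, (w i : ℝ) * α i := by
    refine Finset.sum_congr rfl fun i _ => ?_
    unfold zc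
    push_cast
    rfl
  rw [h2] at h1 ⊢
  exact h1

end Q257.PPC
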