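import Mathlib
import Pool.Agent.Q257.PPC.Vectors
import Pool.Agent.Q257.PPC.Count

/-!
# No Poissonian pair correlations for `(a_k α)`, `a_k = O (k log k)`, in dimension at least two
-/

set_option autoImplicit false

open MeasureTheory Set Filter

namespace Q257.PPC

/-- Let `a k ≤ A N log N` for `k < N`. For almost all `α ∈ ℝ ^ (n + 2)` the sequence `({a_k α})` does not have
Poissonian pair correlations. -/
theorem not_ppc (n : ℕ) (a : ℕ → ℕ) (A : ℝ) (hA : ∀ N : ℕ, 2 ≤ N → ∀ k < N, (a k : ℝ) ≤ A * N * Real.log N) :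
    ∀ᵐ α : Fin (n + 2) → ℝ, ¬ HasPPC (n + 2) (fun k i => Int.fract ((a k : ℝ) * α i)) := by
  set K : ℕ := (n + 2 + 4) * (4 * (n + 2) + 8) with hK
  set c : ℕ := K * (2 ^ (n + 2) + 2) with hc
  have hK1 : 1 ≤ K := by rw [hK]; exact Nat.mul_pos (by omega) (by omega)
  have hc1 : 1 ≤ c := by rw [hc]; exact Nat.mul_pos hK1 (by positivity)
  have hcr : (1 : ℝ) ≤ c := by exact_mod_cast hc1
  set B : ℝ := |A| * (c : ℝ) ^ (n + 2) * ((n + 2) * (Real.log c + 2)) with hB
  have hlogc : 0 ≤ Real.log c := Real.log_nonneg hcr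
  have hB0 : 0 ≤ B := by rw [hB]; positivity
  set ε : ℝ := 1 / (c * (B + 2)) with hε
  have hεpos : 0 < ε := by rw [hε]; positivity
  have hε2 : 2 * ε ≤ 1 := by
    rw [hε, mul_one_div, div_le_one (by positivity)]
    nlinarith
  have hBε : B * ε ≤ 1 / c := by
    rw [hε, mul_one_div, div_le_div_iff₀ (by positivity) (by positivity)]
    nlinarith
  filter_upwards [ae_space n ε hεpos hε2] with α hα hppc
  have hlim := hppc 1 one_pos
  have hev := hlim.eventually (eventually_lt_nhds (b := ((2 : ℝ) ^ (n + 2) + 1)) (by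
    rw [mul_one]; linarith))
  obtain ⟨N0, hN0⟩ := eventually_atTop.1 hev
  obtain ⟨j, hj, w, hw, m, hm⟩ := hα (N0 + 1)
  obtain ⟨hw1, hw2, i0, hi0⟩ := mem_W.1 hw
  set Q : ℕ := 4 ^ j with hQ
  have hQ1 : 1 ≤ Q := Nat.one_le_pow _ _ (by norm_num)
  have hQr : (Q : ℝ) = (4 : ℝ) ^ j := by rw [hQ]; push_cast; rfl
  have hQpos : (0 : ℝ) < Q := by exact_mod_cast hQ1
  have hjQ : j < Q := Nat.lt_pow_self (by norm_num)
  have hQ4 : 4 ≤ Q := by
    calc 4 = 4 ^ 1 := by norm_num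
      _ ≤ 4 ^ j := Nat.pow_le_pow_right (by norm_num) (by omega)
  set M : ℕ := c * Q with hM
  have hMQ : Q ≤ M := Nat.le_mul_of_pos_left _ hc1
  set N : ℕ := M ^ (n + 2) with hN
  have hM1 : 1 ≤ M := hQ1.trans hMQ
  have hNM : M ≤ N := by
    rw [hN]
    exact Nat.le_self_pow (by omega) M
  have hj1 : (1 : ℝ) ≤ j := by exact_mod_cast (by omega : 1 ≤ j)
  -- the size of the numbers `a k`
  have hak : ∀ k < N, (a k : ℝ) * (ε / (((4 : ℝ) ^ j) ^ (n + 2) * j)) ≤ 1 / c := by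
    intro k hk
    have h1 := hA N (by omega) k hk
    have hlog : Real.log N ≤ ((n : ℝ) + 2) * ((Real.log c + 2) * j) := by
      rw [hN]
      push_cast
      rw [Real.log_pow]
      push_cast
      refine mul_le_mul_of_nonneg_left ?_ (by positivity)
      rw [hM]
      push_cast
      rw [Real.log_mul (by positivity) (by positivity), hQr, Real.log_pow]
      have h4 : Real.log 4 ≤ 2 := by
        rw [show (4 : ℝ) = 2 ^ 2 by norm_num, Real.log_pow]
        have := Real.log_two_lt_d9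
        push_cast
        linarith
      have h5 : Real.log c ≤ Real.log c * j := le_mul_of_one_le_right hlogc hj1
      have h6 : (j : ℝ) * Real.log 4 ≤ j * 2 := mul_le_mul_of_nonneg_left h4 (by positivity)
      nlinarith
    have hlog0 : 0 ≤ Real.log N := Real.log_natCast_nonneg N
    have hNr : (N : ℝ) = (c : ℝ) ^ (n + 2) * (Q : ℝ) ^ (n + 2) := by
      rw [hN, hM]; push_cast; rw [mul_pow]
    have h2 : (a k : ℝ) ≤ B * ((Q : ℝ) ^ (n + 2) * j) := by
      calc (a k : ℝ) ≤ A * N * Real.log N := h1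
        _ ≤ |A| * N * Real.log N := by
            have := le_abs_self A
            gcongr
        _ ≤ |A| * N * (((n : ℝ) + 2) * ((Real.log c + 2) * j)) := by gcongr
        _ = B * ((Q : ℝ) ^ (n + 2) * j) := by rw [hNr, hB]; ring
    rw [← hQr]
    calc (a k : ℝ) * (ε / ((Q : ℝ) ^ (n + 2) * j)) ≤
        B * ((Q : ℝ) ^ (n + 2) * j) * (ε / ((Q : ℝ) ^ (n + 2) * j)) := by gcongr
      _ = B * ε := by field_simp
      _ ≤ 1 / c := hBε
  -- apply the count
  have hcount := close_pairs (d := n + 2) (c := c) (Q := Q) (by omega) hc1 hQ1 w (fun i => (hw1 i).2) i0 hi0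
    (fun k i => Int.fract ((a k : ℝ) * α i)) (fun k i => ⟨Int.fract_nonneg _, Int.fract_lt_one _⟩) (by
      intro k hk
      refine ⟨(a k : ℤ) * m - ∑ i, (w i : ℤ) * ⌊(a k : ℝ) * α i⌋, ?_⟩
      have h1 : ∑ i, (w i : ℝ) * Int.fract ((a k : ℝ) * α i) -
          (((a k : ℤ) * m - ∑ i, (w i : ℤ) * ⌊(a k : ℝ) * α i⌋ : ℤ) : ℝ) =
          (a k : ℝ) * (∑ i, (w i : ℝ) * α i - m) := by
        push_cast
        rw [mul_sub, Finset.mul_sum]
        have h2 : ∑ i, (w i : ℝ) * Int.fract ((a k : ℝ) * α i) =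
            ∑ i, (a k : ℝ) * ((w i : ℝ) * α i) - ∑ i, (w i : ℝ) * (⌊(a k : ℝ) * α i⌋ : ℝ) := by
          rw [← Finset.sum_sub_distrib]
          refine Finset.sum_congr rfl fun i _ => ?_
          rw [Int.fract]
          ring
        rw [h2]
        ring
      rw [h1, abs_mul, Nat.abs_cast]
      refine le_trans ?_ (hak k hk)
      exact mul_le_mul_of_nonneg_left hm (by positivity))
  have hthis := hN0 N (by omega)
  simp only at hthis
  have hNr : (N : ℝ) = (M : ℝ) ^ (n + 2) := by rw [hN]; push_cast; rfl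
  have hMpos : (0 : ℝ) < M := by exact_mod_cast hM1
  have hroot : (N : ℝ) ^ (1 / ((n + 2 : ℕ) : ℝ)) = M := by
    rw [hNr, ← Real.rpow_natCast, ← Real.rpow_mul hMpos.le, mul_one_div_cancel (by positivity),
      Real.rpow_one]
  rw [hroot] at hthis
  have hNpos : (0 : ℝ) < N := by rw [hNr]; positivity
  rw [div_lt_iff₀ hNpos] at hthis
  have hcK : (c : ℝ) / (((n + 2 : ℕ) + 4) * (4 * ((n + 2 : ℕ) : ℝ) + 8)) - 1 = (2 : ℝ) ^ (n + 2) + 1 := by
    have h1 : (c : ℝ) = K * ((2 : ℝ) ^ (n + 2) + 2) := by rw [hc]; push_cast; ring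
    have h2 : (K : ℝ) = (((n + 2 : ℕ) + 4) * (4 * ((n + 2 : ℕ) : ℝ) + 8)) := by
      rw [hK]; push_cast; ring
    rw [h1, ← h2]
    have hKr : (K : ℝ) ≠ 0 := by
      have : (0 : ℝ) < K := by exact_mod_cast hK1
      exact this.ne'
    field_simp
    ring
  rw [hcK, ← hNr] at hcount
  exact absurd hthis (not_lt.2 hcount)

/-- an upper bound of the right order for the `k`-th prime -/
lemma nth_prime_le (N : ℕ) (hN : 2 ≤ N) (k : ℕ) (hk : k < N) :
    (Nat.nth Nat.Prime k : ℝ) ≤ 34 * N * Real.log N := by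
  have hNr : (2 : ℝ) ≤ N := by exact_mod_cast hN
  have hl2 := Real.log_two_gt_d9
  have hlogN : Real.log 2 ≤ Real.log N := Real.log_le_log (by norm_num) hNr
  have hlogpos : 0 < Real.log N := by linarith
  set L : ℝ := Real.log N with hL
  set x : ℕ := ⌈32 * N * L⌉₊ with hx
  have hx1 : 32 * N * L ≤ x := Nat.le_ceil _
  have hx2 : (x : ℝ) < 32 * N * L + 1 := Nat.ceil_lt_add_one (by positivity)
  have hNL : (1.3 : ℝ) ≤ N * L := by nlinarith
  have hx40 : (40 : ℝ) ≤ x := by nlinarith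
  have hLN : L ≤ N := by
    have := Real.log_le_sub_one_of_pos (by linarith : (0 : ℝ) < N)
    linarith
  -- log (x + 1) ≤ 8 log N
  have hxp : (x : ℝ) + 1 ≤ (N : ℝ) ^ 8 := by
    have h1 : (x : ℝ) + 1 ≤ 34 * N ^ 2 := by nlinarith
    have h2 : (64 : ℝ) ≤ N ^ 6 := by
      calc (64 : ℝ) = 2 ^ 6 := by norm_num
        _ ≤ N ^ 6 := by gcongr
    have h3 : (0 : ℝ) < (N : ℝ) ^ 2 := by positivity
    calc (x : ℝ) + 1 ≤ 34 * N ^ 2 := h1
      _ ≤ N ^ 6 * N ^ 2 := by nlinarith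
      _ = (N : ℝ) ^ 8 := by ring
  have hlogx1 : Real.log (x + 1) ≤ 8 * L := by
    have := Real.log_le_log (by positivity) hxp
    rw [Real.log_pow] at this
    exact_mod_cast this
  have hlogx : Real.log x ≤ 8 * L := (Real.log_le_log (by linarith) (by linarith)).trans hlogx1
  have hlogx0 : 0 < Real.log x := Real.log_pos (by linarith)
  have hpi := Chebyshev.pi_ge x
  have h1 : (N : ℝ) ≤ (x * Real.log 2 - Real.log (x + 1)) / Real.log x := by
    rw [le_div_iff₀ hlogx0]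
    have h2 : (N : ℝ) * Real.log x ≤ N * (8 * L) := by gcongr
    have h3 : 22 * (N * L) ≤ x * Real.log 2 := by nlinarith
    nlinarith
  have h2 : (N : ℝ) ≤ (Nat.primeCounting x : ℝ) := h1.trans hpi
  have h3 : N ≤ Nat.primeCounting x := by exact_mod_cast h2
  have h4 : Nat.nth Nat.Prime k < x + 1 := by
    apply Nat.nth_lt_of_lt_count
    exact lt_of_lt_of_le hk h3
  have h5 : (Nat.nth Nat.Prime k : ℝ) ≤ x := by exact_mod_cast Nat.lt_succ_iff.1 h4
  nlinarith

/-- the sequence of primes -/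
theorem primes_not_ppc (n : ℕ) : ∀ᵐ α : Fin (n + 2) → ℝ,
    ¬ HasPPC (n + 2) (fun k i => Int.fract ((Nat.nth Nat.Prime k : ℝ) * α i)) :=
  not_ppc n (fun k => Nat.nth Nat.Prime k) 34 (fun N hN k hk => nth_prime_le N hN k hk)

end Q257.PPC
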